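import Pool.Agent.H3.S2.TgQ
import Mathlib.LinearAlgebra.Eigenspace.Minpoly

/-!
# MP_70ba79_ag, THEOREM S, part 2, RDC: from homogeneous elements to all elements
-/

set_option autoImplicit false

namespace Pool.Agent.H56.S2

open MvPolynomial SC Pool.Agent.H27.LV
open Pool.Agent.H92.SF
open Pool.Agent.H3.SF
open Pool.Agent.H3.S2

/-- polynomials in the derivation act on homogeneous elements by scalars -/
theorem aev_hom {k F : Type} [Field k] [Field F] [Algebra k F] (E : Derivation k F F)
    (P : Polynomial k) (t : ℤ) (x : F) (hx : Hm k E t x) :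
    (Polynomial.aeval ((E : F →ₗ[k] F) : Module.End k F) P) x = P.eval (t : k) • x := by
  by_cases h0 : x = 0
  · rw [h0, map_zero, smul_zero]
  · refine Module.End.aeval_apply_of_hasEigenvector ⟨?_, h0⟩
    rw [Module.End.mem_eigenspace_iff]
    have h1 : E x = (t : F) * x := hx
    change E x = _
    rw [h1, Algebra.smul_def, map_intCast]

theorem hom_mul {k F : Type} [Field k] [Field F] [Algebra k F] (E : Derivation k F F)
    (s t : ℤ) (x y : F) (hx : Hm k E s x) (hy : Hm k E t y) : Hm k E (s + t) (x * y) := by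
  have h1 : E x = (s : F) * x := hx
  have h2 : E y = (t : F) * y := hy
  change E (x * y) = _
  rw [Derivation.leibniz, h1, h2, smul_eq_mul, smul_eq_mul]
  push_cast
  ring

theorem main (k F : Type) [Field k] [CharZero k] [Field F] [Algebra k F]
    (u : Fin 3 → F) (E : Derivation k F F) (hneg : ∀ t : ℤ, t < 0 → BB k u E t = ⊥)
    (hgrd : ∀ a, Itg k u a → a ∈ ⨆ t : ℤ, BB k u E t) (m : ℕ) (G : F) (hG0 : G ≠ 0)
    (hGm : Hm k E m G)
    (hh : ∀ (a : F) (t : ℕ), Itg k u a → Hm k E t a → Itg k u (a * a / G) → Itg k u (a / G))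
    (S : Finset ℤ) : ∀ c : ℤ → F, (∀ t, c t ∈ BB k u E t) →
      Itg k u ((∑ t ∈ S, c t) * (∑ t ∈ S, c t) / G) → Itg k u ((∑ t ∈ S, c t) / G) := by
  classical
  induction S using Finset.induction_on_max with
  | empty =>
    intro c hc _
    rw [Finset.sum_empty, zero_div]
    exact (Bb k u).zero_mem
  | insert T S hT ih =>
    intro c hc h
    have hTS : T ∉ S := fun hm => lt_irrefl _ (hT T hm)
    set S' := insert T S with hS'
    have hle : ∀ i ∈ S', i ≤ T := by
      intro i hi
      rcases Finset.mem_insert.1 hi with rfl | hi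
      · exact le_rfl
      · exact (hT i hi).le
    have hci : ∀ t, Itg k u (c t) := fun t => (hc t).1
    have hch : ∀ t, Hm k E t (c t) := fun t => (hc t).2
    set a := ∑ t ∈ S', c t with ha
    have hai : Itg k u a := by
      have h1 : a ∈ Bb k u := by
        rw [ha]
        exact sum_mem fun t _ => hci t
      exact h1
    -- decomposition of the quotient
    obtain ⟨b, hb, hbs⟩ := (Submodule.mem_iSup_iff_exists_finsupp _ _).1 (hgrd _ h)
    -- the polynomial
    set Q : Finset ℤ := ((S' ×ˢ S').image fun p => p.1 + p.2).erase (2 * T) with hQ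
    set P : Polynomial k := ∏ n ∈ Q, (Polynomial.X - Polynomial.C (n : k)) with hP
    have hPT : P.eval ((2 * T : ℤ) : k) ≠ 0 := by
      rw [hP, Polynomial.eval_prod, Finset.prod_ne_zero_iff]
      intro n hn
      rw [Polynomial.eval_sub, Polynomial.eval_X, Polynomial.eval_C, sub_ne_zero]
      intro h1
      exact Finset.ne_of_mem_erase hn (Int.cast_injective h1).symm
    have hP0 : ∀ i ∈ S', ∀ j ∈ S', ¬ (i = T ∧ j = T) → P.eval ((i + j : ℤ) : k) = 0 := by
      intro i hi j hj hij
      rw [hP, Polynomial.eval_prod]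
      refine Finset.prod_eq_zero (i := i + j) ?_ ?_
      · refine Finset.mem_erase.2 ⟨fun h1 => hij ?_, Finset.mem_image.2
          ⟨(i, j), Finset.mem_product.2 ⟨hi, hj⟩, rfl⟩⟩
        have h2 := hle i hi
        have h3 := hle j hj
        constructor <;> omega
      · rw [Polynomial.eval_sub, Polynomial.eval_X, Polynomial.eval_C, sub_self]
    set f : F →ₗ[k] F := Polynomial.aeval ((E : F →ₗ[k] F) : Module.End k F) P with hf
    have hfh : ∀ (t : ℤ) (x : F), Hm k E t x → f x = P.eval (t : k) • x :=
      fun t x hx => aev_hom E P t x hx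
    -- left side
    have hL : f (a * a) = P.eval ((2 * T : ℤ) : k) • (c T * c T) := by
      rw [ha, Finset.sum_mul_sum, map_sum]
      have h1 : ∀ i ∈ S', f (∑ j ∈ S', c i * c j) =
          if i = T then P.eval ((2 * T : ℤ) : k) • (c T * c T) else 0 := by
        intro i hi
        rw [map_sum]
        have h2 : ∀ j ∈ S', f (c i * c j) =
            if i = T ∧ j = T then P.eval ((2 * T : ℤ) : k) • (c T * c T) else 0 := by
          intro j hj
          rw [hfh (i + j) _ (hom_mul E i j _ _ (hch i) (hch j))]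
          by_cases hij : i = T ∧ j = T
          · rw [if_pos hij, hij.1, hij.2, two_mul]
          · rw [if_neg hij, hP0 i hi j hj hij, zero_smul]
        rw [Finset.sum_congr rfl h2]
        by_cases hiT : i = T
        · simp only [hiT, true_and]
          rw [Finset.sum_ite_eq' S' T, if_pos (Finset.mem_insert_self T S), if_pos trivial]
        · simp only [hiT, false_and, if_false, Finset.sum_const_zero]
      rw [Finset.sum_congr rfl h1, Finset.sum_ite_eq' S' T,
        if_pos (Finset.mem_insert_self T S)]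
    -- right side
    have haG : a * a = G * ∑ i ∈ b.support, b i := by
      have hbs' : ∑ i ∈ b.support, b i = a * a / G := hbs
      rw [hbs', mul_div_cancel₀ _ hG0]
    have hR : f (a * a) = G * ∑ i ∈ b.support, P.eval ((((m : ℕ) : ℤ) + i : ℤ) : k) • b i := by
      rw [haG, Finset.mul_sum, map_sum, Finset.mul_sum]
      refine Finset.sum_congr rfl fun i _ => ?_
      rw [hfh ((m : ℕ) + i) _ (hom_mul E _ _ _ _ hGm (hb i).2), mul_smul_comm]
    have hcT : Itg k u (c T * c T / G) := by
      have h1 : c T * c T / G = (P.eval ((2 * T : ℤ) : k))⁻¹ •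
          ∑ i ∈ b.support, P.eval ((((m : ℕ) : ℤ) + i : ℤ) : k) • b i := by
        rw [div_eq_iff hG0, smul_mul_assoc, mul_comm _ G, ← hR, hL, inv_smul_smul₀ hPT]
      rw [h1]
      have h2 : (P.eval ((2 * T : ℤ) : k))⁻¹ •
          ∑ i ∈ b.support, P.eval ((((m : ℕ) : ℤ) + i : ℤ) : k) • b i ∈ Bb k u :=
        (Bb k u).smul_mem (sum_mem fun i _ => (Bb k u).smul_mem (hb i).1 _) _
      exact h2
    have hcTG : Itg k u (c T / G) := by
      by_cases hneg' : T < 0
      · have h1 := hc T
        rw [hneg T hneg', Submodule.mem_bot] at h1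
        rw [h1, zero_div]
        exact (Bb k u).zero_mem
      · obtain ⟨t, rfl⟩ := Int.eq_ofNat_of_zero_le (not_lt.1 hneg')
        exact hh (c t) t (hci _) (hch _) hcT
    have hsum : a = c T + ∑ t ∈ S, c t := by rw [ha, hS', Finset.sum_insert hTS]
    have hrest : Itg k u ((∑ t ∈ S, c t) / G) := by
      refine ih c hc ?_
      have h1 : (∑ t ∈ S, c t) * (∑ t ∈ S, c t) / G =
          a * a / G - ((2 : k) • (a * (c T / G))) + c T * (c T / G) := by
        have h2 : ∑ t ∈ S, c t = a - c T := by rw [hsum]; ring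
        rw [h2, Algebra.smul_def, map_ofNat]
        field_simp
        ring
      rw [h1]
      have h3 : a * a / G - ((2 : k) • (a * (c T / G))) + c T * (c T / G) ∈ Bb k u :=
        (Bb k u).add_mem ((Bb k u).sub_mem h ((Bb k u).smul_mem ((Bb k u).mul_mem hai hcTG) _))
          ((Bb k u).mul_mem (hci T) hcTG)
      exact h3
    rw [hsum, add_div]
    exact (Bb k u).add_mem hcTG hrest

theorem pf_RDC (_hSF1 : T_SF1) : T_RDC := by
  intro k F _ _ _ _ _ u dd δ j0 c0 J hS m G hG0 hGi hGm hh a ha h
  obtain ⟨b, hb, hbs⟩ := (Submodule.mem_iSup_iff_exists_finsupp _ _).1 (hS.grd a ha)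
  have hbs' : ∑ i ∈ b.support, b i = a := hbs
  rw [← hbs'] at h ⊢
  exact main k F u (eu u dd) hS.neg hS.grd m G hG0 hGm hh b.support b hb h

end Pool.Agent.H56.S2
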